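import Pool.Agent.Hhelper67.Aff.Example
import Pool.Agent.Hhelper67.Aff.Titeica

/-!
The equivalence of (i) and (ii) fails for some regular convex cone of `ℝ³`.

The conormal map of a hyperbolic affine sphere asymptotic to `∂K` is, up to a constant factor, a
hyperbolic affine sphere asymptotic to the boundary of the dual cone, with the same Blaschke
metric. So (i) is invariant under duality. Condition (ii) is not: there is a regular cone without
any 2-dimensional face whose dual cone satisfies (ii).
-/

namespace Pool.Agent.Results.MP_63dd76_gt.Disproof

open Pool.Agent.Hhelper67.Aff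

/-- Check of the definitions, not used below: the surface `3^{-1/2} (e^u, e^v, e^{-u-v})` over the
octant satisfies all of them. -/
theorem check : IsRegularCone octant ∧ IsHyperbolicAffineSphere (-1) tit flatField ∧
    IsCompleteMetric flatField ∧ IsAsymptoticTo tit octant ∧ ConformalToC flatField :=
  titeica

/-- There is a regular convex cone `K` of `ℝ³` for which exactly one of the following holds:
(i) each complete hyperbolic affine sphere asymptotic to `∂K` is conformally equivalent to `ℂ`;
(ii) the 2-dimensional faces of `K` have dense union in `∂K`. -/
theorem result : ∃ K : Set E3, IsRegularCone K ∧ ¬ (SpheresConformalToC K ↔ FacesDense K) := by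
  obtain ⟨K, hK, hK', h1, h2⟩ := exists_cones
  by_cases hd : SpheresConformalToC (dualCone K) ↔ FacesDense (dualCone K)
  · refine ⟨K, hK, fun h => ?_⟩
    have hc := hd.2 h2
    apply h1 (h.1 ?_)
    intro H f g hf hcomp hasy
    have hf' := sphereW_iff.2 hf
    obtain ⟨a, ha, hdual⟩ := dual_sphere hf'
    exact hc H _ g (sphereW_iff.1 hdual) hcomp (dual_asymptotic (sph_of_sphere hf') hK hasy ha)
  · exact ⟨_, hK', hd⟩

end Pool.Agent.Results.MP_63dd76_gt.Disproof
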